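import Pool.Agent.Helper41.PM.Count

/-!
# The lower bound for nondeterministic read-once branching programs
-/

set_option autoImplicit false

open Finset

namespace Pool.Agent.Helper41.PM

open Pool.Agent.Helper80K3

/-- The number of functions of circuit size at most `s`. -/
theorem card_easy {n s : ℕ} (hn : 1 ≤ n) (hs : s + n ≤ 2 ^ n) :
    (easyF n s).card ≤ 2 ^ ((2 * n + 3) * (s + 1)) := by
  refine (card_easyF hn s).trans ?_
  rw [pow_mul]
  refine Nat.pow_le_pow_left ?_ _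
  calc 8 * (s + n) ^ 2 ≤ 8 * (2 ^ n) ^ 2 := Nat.mul_le_mul_left _ (Nat.pow_le_pow_left hs 2)
    _ = 2 ^ (2 * n + 3) := by
        rw [← pow_mul, pow_add]
        ring

theorem hasSize_mono {n : ℕ} {g : (Fin n → Bool) → Bool} {s s' : ℕ} (h : HasSize g s)
    (hs : s ≤ s') : HasSize g s' := by
  obtain ⟨L, h1, h2, h3⟩ := h
  exact ⟨L, h1, h2.trans hs, h3⟩

theorem nbp_main {n w s s' : ℕ} (hn : 1 ≤ n) (hw : 1 ≤ w) (hs1 : 1 ≤ s) (hss : s ≤ s')
    (hs : 1100 * n ^ 7 * s' * w ≤ s ^ 2) (hs' : 32 * n * s' ≤ 2 ^ n) {V : Type} [Fintype V]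
    (B : NBP (Fin n → Bool) (Option Bool) V) (hB : B.ReadOnce)
    (h1 : ∀ g, HasSize g s → B.Accepts (fun x => some (g x)))
    (h2 : ∀ g, B.Accepts (fun x => some (g x)) → HasSize g s') :
    2 ^ w ≤ Fintype.card V := by
  classical
  have hs'1 : 1 ≤ s' := hs1.trans hss
  have hn3 : 0 < n ^ 3 := by positivity
  have hn7 : 1 ≤ n ^ 7 := Nat.one_le_pow _ _ hn
  -- `s` is large
  have hslarge : 1100 * n ^ 7 ≤ s := by
    have h3 : s * (1100 * n ^ 7) ≤ s * s := by
      calc s * (1100 * n ^ 7) ≤ s' * (1100 * n ^ 7) := Nat.mul_le_mul_right _ hss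
        _ ≤ s' * (1100 * n ^ 7) * w := Nat.le_mul_of_pos_right _ hw
        _ = 1100 * n ^ 7 * s' * w := by ring
        _ ≤ s ^ 2 := hs
        _ = s * s := by ring
    exact Nat.le_of_mul_le_mul_left h3 hs1
  have h37 : n ^ 3 ≤ n ^ 7 := Nat.pow_le_pow_right hn (by norm_num)
  set k : ℕ := (s - 1) / (4 * n ^ 3) with hk
  have hk1 : 1 + k * (4 * n ^ 3) ≤ s := by
    have := Nat.div_mul_le_self (s - 1) (4 * n ^ 3)
    rw [← hk] at this
    omega
  have hk2 : s ≤ 4 * n ^ 3 * (k + 1) := by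
    have := Nat.lt_mul_div_succ (s - 1) (show 0 < 4 * n ^ 3 by omega)
    rw [← hk] at this
    omega
  have hk3 : s ≤ 5 * n ^ 3 * k := by
    have e1 : 4 * n ^ 3 * (k + 1) = 4 * (n ^ 3 * k) + 4 * n ^ 3 := by ring
    have e2 : 5 * n ^ 3 * k = 5 * (n ^ 3 * k) := by ring
    omega
  have hk0 : 1 ≤ k := by
    by_contra h
    have : k = 0 := Nat.eq_zero_of_not_pos h
    rw [this] at hk3
    omega
  have hkk : 44 * n * s' * w ≤ k ^ 2 := by
    have h3 : 25 * n ^ 6 * (44 * n * s' * w) ≤ 25 * n ^ 6 * k ^ 2 := by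
      calc 25 * n ^ 6 * (44 * n * s' * w) = 1100 * n ^ 7 * s' * w := by ring
        _ ≤ s ^ 2 := hs
        _ ≤ (5 * n ^ 3 * k) ^ 2 := Nat.pow_le_pow_left hk3 2
        _ = _ := by ring
    exact Nat.le_of_mul_le_mul_left h3 (by positivity)
  have hks : k ≤ s' := by
    have : k * 1 ≤ k * (4 * n ^ 3) := Nat.mul_le_mul_left _ (by omega)
    omega
  have hns : s' + n ≤ 2 * (n * s') := by
    nlinarith [Nat.mul_le_mul hn hs'1]
  set h : ℕ := (2 * n + 3) * (s' + 1) with hh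
  have hh10 : h ≤ 10 * (n * s') := by
    calc h ≤ (5 * n) * (2 * s') := Nat.mul_le_mul (by omega) (by omega)
      _ = _ := by ring
  have hns' : 32 * (n * s') ≤ 2 ^ n := by
    calc 32 * (n * s') = 32 * n * s' := by ring
      _ ≤ _ := hs'
  have hY : (easyF n s').card ≤ 2 ^ h := card_easy hn (by omega)
  set t : ℕ := 2 * h / k with ht
  have ht1 : t * k ≤ 2 * h := Nat.div_mul_le_self _ _
  have ht2 : 2 * h < k * (t + 1) := Nat.lt_mul_div_succ _ hk0
  obtain ⟨Ω, i1, i2, F, hU, hF⟩ := exists_family n hn k hk0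
  have hns1 : s' ≤ n * s' := Nat.le_mul_of_pos_left _ hn
  have hX : Fintype.card (Fin n → Bool) = 2 ^ n := by
    rw [Fintype.card_fun, Fintype.card_bool, Fintype.card_fin]
  have h3 : (easyF n s').card < 2 ^ (Fintype.card (Fin n → Bool) - (t + 1) * k) := by
    refine lt_of_le_of_lt hY (Nat.pow_lt_pow_right (by norm_num) ?_)
    rw [hX]
    have e1 : (t + 1) * k = t * k + k := by ring
    omega
  have hmain := nbp_count k t F hU B hB (easyF n s') (fun ω => h1 _ (hasSize_mono (hF ω) hk1))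
    (fun g hg => mem_easyF (h2 g hg)) h3
  by_contra hcon
  rw [not_le] at hcon
  have h4 : 2 ^ (k * (t + 1)) ≤ 2 ^ (h + w * ((t + 2) * (t + 1))) := by
    calc 2 ^ (k * (t + 1)) ≤ (easyF n s').card * Fintype.card V ^ ((t + 2) * (t + 1)) := hmain
      _ ≤ 2 ^ h * (2 ^ w) ^ ((t + 2) * (t + 1)) :=
          Nat.mul_le_mul hY (Nat.pow_le_pow_left hcon.le _)
      _ = _ := by rw [← pow_mul, ← pow_add]
  have h5 : k * (t + 1) ≤ h + w * ((t + 2) * (t + 1)) :=
    (Nat.pow_le_pow_iff_right (by norm_num)).1 h4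
  have h6 : 2 * w * (t + 2) ≤ k := by
    have h7 : 2 * w * (t + 2) * k ≤ k * k := by
      calc 2 * w * (t + 2) * k = 2 * w * (t * k + 2 * k) := by ring
        _ ≤ 2 * w * (22 * (n * s')) := Nat.mul_le_mul_left _ (by omega)
        _ = 44 * n * s' * w := by ring
        _ ≤ k ^ 2 := hkk
        _ = k * k := by ring
    exact Nat.le_of_mul_le_mul_right h7 hk0
  have h8 : 2 * w * (t + 2) * (t + 1) ≤ k * (t + 1) := Nat.mul_le_mul_right _ h6
  have e1 : 2 * w * (t + 2) * (t + 1) = 2 * (w * ((t + 2) * (t + 1))) := by ring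
  omega

end Pool.Agent.Helper41.PM
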