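import Pool.Agent.Helper41.PM.Tensor

/-!
# Networks of width one that check all variables
-/

set_option autoImplicit false

open Finset

namespace Pool.Agent.Helper41.PM

open Pool.Agent.TH700.PA

/-- The network of width one that checks a condition on each variable. -/
theorem exists_check {X Al : Type} [DecidableEq X] (φ : X → Al → Bool) (E : Finset X)
    (hE : E.Nonempty) :
    ∃ T : Net ℚ X Al Unit, (∀ x, x ∈ E → T.reads x = 1) ∧ (∀ x, x ∉ E → T.reads x = 0) ∧
      ∀ z : X → Al, ((∀ x ∈ E, φ x (z x) = true) → T.eval z () = 1) ∧
        (¬ (∀ x ∈ E, φ x (z x) = true) → T.eval z () = 0) := by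
  classical
  induction hE using Finset.Nonempty.cons_induction with
  | singleton e =>
    refine ⟨.leaf e fun b _ => if φ e b = true then 1 else 0, fun e' he' => ?_, fun e' he' => ?_,
      fun x => ⟨fun h => ?_, fun h => ?_⟩⟩
    · rw [mem_singleton] at he'
      unfold Net.reads
      exact if_pos he'.symm
    · rw [mem_singleton] at he'
      unfold Net.reads
      exact if_neg fun h => he' h.symm
    · unfold Net.eval
      exact if_pos (h e (mem_singleton_self e))
    · unfold Net.eval
      refine if_neg fun h1 => h fun e' he' => ?_
      rw [mem_singleton] at he'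
      rw [he']
      exact h1
  | cons e E he hE ih =>
    obtain ⟨T, hr1, hr0, hv⟩ := ih
    have h : ∀ e', (Net.node T (.leaf e fun b _ => if φ e b = true then (1 : ℚ) else 0)
        fun _ _ _ => 1).reads e' = T.reads e' + (if e = e' then 1 else 0) := by
      intro e'
      show T.reads e' + Net.reads e' (.leaf e _) = _
      unfold Net.reads
      split_ifs <;> rfl
    have h' : ∀ x, (Net.node T (.leaf e fun b _ => if φ e b = true then (1 : ℚ) else 0)
        fun _ _ _ => 1).eval x () = T.eval x () * (if φ e (x e) = true then 1 else 0) := by
      intro x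
      show ∑ i, ∑ j, (1 : ℚ) * (T.eval x i * (if φ e (x e) = true then 1 else 0)) = _
      simp only [univ_unique, sum_singleton, one_mul, PUnit.default_eq_unit]
    refine ⟨.node T (.leaf e fun b _ => if φ e b = true then 1 else 0) fun _ _ _ => 1,
      fun e' he' => ?_, fun e' he' => ?_, fun x => ⟨fun hx => ?_, fun hx => ?_⟩⟩
    · rw [h, mem_cons] at *
      rcases he' with rfl | he'
      · rw [hr0 _ he, if_pos rfl]
      · rw [hr1 _ he', if_neg]
        rintro rfl
        exact he he'
    · rw [mem_cons, not_or] at he'
      rw [h, hr0 _ he'.2, if_neg fun h => he'.1 h.symm]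
    · rw [h', (hv x).1 fun e' he' => hx e' (mem_cons.2 (Or.inr he')),
        if_pos (hx e (mem_cons.2 (Or.inl rfl)))]
      norm_num
    · rw [h']
      by_cases h1 : φ e (x e) = true
      · rw [(hv x).2 fun h2 => hx fun e' he' => ?_]
        · norm_num
        · rw [mem_cons] at he'
          rcases he' with rfl | he'
          · exact h1
          · exact h2 e' he'
      · rw [if_neg h1]
        norm_num

end Pool.Agent.Helper41.PM
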