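import Pool.Agent.Helper41.PM.Walks
import Pool.Agent.Helper41.TC.Basic

/-!
# Counting the mixtures of easy functions accepted by a nondeterministic read-once branching program
-/

set_option autoImplicit false

open Finset

namespace Pool.Agent.Helper41.PM

open Pool.Agent.Helper80K3

variable {X : Type} [DecidableEq X] [Fintype X]

/-- The number of functions that agree with a given one on a set. -/
theorem card_agree (f : X → Bool) (Z : Finset X) :
    (univ.filter (fun g : X → Bool => ∀ x ∈ Z, g x = f x)).card =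
      2 ^ (Fintype.card X - Z.card) := by
  classical
  have h1 : univ.filter (fun g : X → Bool => ∀ x ∈ Z, g x = f x) =
      Fintype.piFinset (fun x => if x ∈ Z then ({f x} : Finset Bool) else univ) := by
    ext g
    rw [mem_filter, Fintype.mem_piFinset]
    refine ⟨fun h x => ?_, fun h => ⟨mem_univ _, fun x hx => ?_⟩⟩
    · by_cases hx : x ∈ Z
      · rw [if_pos hx, mem_singleton]
        exact h.2 x hx
      · rw [if_neg hx]
        exact mem_univ _
    · have := h x
      rw [if_pos hx, mem_singleton] at this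
      exact this
  have h2 : ∀ x, (if x ∈ Z then ({f x} : Finset Bool) else univ).card = if x ∈ Z then 1 else 2 := by
    intro x
    split_ifs
    · exact card_singleton _
    · rw [card_univ, Fintype.card_bool]
  rw [h1, Fintype.card_piFinset, prod_congr rfl fun x _ => h2 x, prod_ite, prod_const_one, one_mul,
    prod_const]
  congr 1
  have h3 : univ.filter (fun x => x ∉ Z) = Zᶜ := by
    ext x
    simp
  rw [h3, card_compl]

variable {Ω V : Type} [Fintype Ω] [Nonempty Ω] [Fintype V]

theorem nbp_count (k t : ℕ) (F : Ω → X → Bool) (hU : UnifOff F (univ : Finset Ω) k ∅)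
    (B : NBP X (Option Bool) V) (hB : B.ReadOnce) (Y : Finset (X → Bool))
    (h1 : ∀ ω, B.Accepts (fun x => some (F ω x)))
    (h2 : ∀ g : X → Bool, B.Accepts (fun x => some (g x)) → g ∈ Y)
    (h3 : Y.card < 2 ^ (Fintype.card X - (t + 1) * k)) :
    2 ^ (k * (t + 1)) ≤ Y.card * Fintype.card V ^ ((t + 2) * (t + 1)) := by
  classical
  choose l hw hT using h1
  have hlen : ∀ ω, (t + 1) * k ≤ (l ω).length := by
    intro ω
    by_contra hcon
    rw [not_le] at hcon
    have h4 : (((l ω).map Prod.fst).toFinset).card ≤ (l ω).length :=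
      (List.toFinset_card_le _).trans (by rw [List.length_map])
    have h5 : (univ.filter (fun g : X → Bool =>
        ∀ x ∈ ((l ω).map Prod.fst).toFinset, g x = F ω x)).card ≤ Y.card := by
      refine card_le_card fun g hg => h2 g ⟨l ω, hw ω, fun q hq => ?_⟩
      rw [mem_filter] at hg
      rw [← hT ω q hq]
      show some (g q.1) = some (F ω q.1)
      rw [hg.2 q.1 (List.mem_toFinset.2 (List.mem_map_of_mem hq))]
    rw [card_agree] at h5
    have h6 : 2 ^ (Fintype.card X - (t + 1) * k) ≤
        2 ^ (Fintype.card X - (((l ω).map Prod.fst).toFinset).card) :=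
      Nat.pow_le_pow_right (by norm_num) (by omega)
    omega
  have hcut := fun ω => (hw ω).cut k t (hlen ω)
  choose τ ls e0 e1 e2 using hcut
  -- the cut nodes
  set c : Ω → (Fin (t + 2) → V) := fun ω j => τ ω j with hc
  have hfib : ∀ σ : Fin (t + 2) → V, (univ.filter (fun ω => c ω = σ)).card ^ (t + 1) *
      2 ^ (k * (t + 1)) ≤ Y.card * Fintype.card Ω ^ (t + 1) := by
    intro σ
    set Ωs : Finset Ω := univ.filter (fun ω => c ω = σ) with hΩs
    rcases Ωs.eq_empty_or_nonempty with hem | ⟨ω₀, hω₀⟩
    · rw [hem, card_empty, zero_pow (by omega), zero_mul]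
      exact Nat.zero_le _
    have heq : ∀ ω ∈ Ωs, ∀ j, j < t + 2 → τ ω j = τ ω₀ j := by
      intro ω hω j hj
      have f1 := (mem_filter.1 hω).2
      have f2 := (mem_filter.1 hω₀).2
      have := congrFun (f1.trans f2.symm) ⟨j, hj⟩
      exact this
    have hjd := join_disjoint hB (e0 ω₀) (e1 ω₀) (fun j hj => (e2 ω₀ j hj).1)
    -- `k` variables of every segment
    have hYj : ∀ j : Fin (t + 1), ∃ P : Finset X, P.card = k ∧
        ∀ x ∈ P, x ∈ Vars B (τ ω₀ j) (τ ω₀ (j + 1)) := by
      intro j
      have f1 : k ≤ (((ls ω₀ j).map Prod.fst).toFinset).card := by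
        rw [List.toFinset_card_of_nodup (hjd.1 j j.2), List.length_map]
        exact (e2 ω₀ j j.2).2.1
      obtain ⟨P, hP, hPc⟩ := exists_subset_card_eq f1
      exact ⟨P, hPc, fun x hx => ⟨ls ω₀ j, (e2 ω₀ j j.2).1, List.mem_toFinset.1 (hP hx)⟩⟩
    choose P hPc hPv using hYj
    have hp : ∀ x : X, ∃ j : Fin (t + 1), ∀ i : Fin (t + 1),
        x ∈ Vars B (τ ω₀ i) (τ ω₀ (i + 1)) → i = j := by
      intro x
      by_cases h : ∃ j : Fin (t + 1), x ∈ Vars B (τ ω₀ j) (τ ω₀ (j + 1))
      · obtain ⟨j, hj⟩ := h
        refine ⟨j, fun i hi => ?_⟩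
        by_contra hne
        exact vars_disjoint hB (e0 ω₀) (e1 ω₀) (fun j hj => (e2 ω₀ j hj).1) i.2 j.2
          (fun h => hne (Fin.ext h)) hi hj
      · exact ⟨0, fun i hi => absurd ⟨i, hi⟩ h⟩
    choose p hp using hp
    set G : (Fin (t + 1) → Ω) → X → Bool := fun a x => F (a (p x)) x with hG
    have hGY : ∀ a ∈ Fintype.piFinset (fun _ : Fin (t + 1) => Ωs), G a ∈ Y := by
      intro a ha
      rw [Fintype.mem_piFinset] at ha
      apply h2
      refine mix_accepts (τ := τ ω₀) (t := t + 1) (e0 ω₀) (e1 ω₀)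
        (fun j => if h : j < t + 1 then ls (a ⟨j, h⟩) j else []) (fun j hj => ?_) _
        (fun j hj q hq => ?_)
      · rw [dif_pos hj]
        have f1 := (e2 (a ⟨j, hj⟩) j hj).1
        rw [heq _ (ha _) j (by omega), heq _ (ha _) (j + 1) (by omega)] at f1
        exact f1
      · simp only [dif_pos hj] at hq
        have f1 := (e2 (a ⟨j, hj⟩) j hj).1
        rw [heq _ (ha _) j (by omega), heq _ (ha _) (j + 1) (by omega)] at f1
        have f2 : (⟨j, hj⟩ : Fin (t + 1)) = p q.1 :=
          hp q.1 ⟨j, hj⟩ ⟨_, f1, List.mem_map_of_mem hq⟩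
        have f3 := hT _ q ((e2 (a ⟨j, hj⟩) j hj).2.2 q hq)
        rw [← f3, hG]
        simp only
        rw [← f2]
    have hcount := TC.card_le_labels (Fintype.piFinset (fun _ : Fin (t + 1) => Ωs)) Y G hGY
      (Fintype.card Ω ^ (t + 1) / 2 ^ (k * (t + 1))) (by
        intro h _
        rw [Nat.le_div_iff_mul_le (by positivity)]
        have g1 : ((Fintype.piFinset (fun _ : Fin (t + 1) => Ωs)).filter (fun a => G a = h)).card ≤
            (Fintype.piFinset (fun j : Fin (t + 1) =>
              univ.filter (fun ω : Ω => ∀ x ∈ P j, F ω x = h x))).card := by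
          refine card_le_card fun a ha => ?_
          rw [mem_filter] at ha
          rw [Fintype.mem_piFinset]
          intro j
          rw [mem_filter]
          refine ⟨mem_univ _, fun x hx => ?_⟩
          have f1 : j = p x := hp x j (hPv j x hx)
          have f2 := congrFun ha.2 x
          rw [← f2, hG]
          simp only
          rw [← f1]
        have g2 : ∀ j : Fin (t + 1), (univ.filter (fun ω : Ω => ∀ x ∈ P j, F ω x = h x)).card *
            2 ^ k = Fintype.card Ω := by
          intro j
          have := hU (P j) h (hPc j).le (disjoint_empty_right _)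
          rw [hPc j, card_univ] at this
          convert this
        calc _ ≤ (Fintype.piFinset (fun j : Fin (t + 1) =>
              univ.filter (fun ω : Ω => ∀ x ∈ P j, F ω x = h x))).card * 2 ^ (k * (t + 1)) :=
              Nat.mul_le_mul_right _ g1
          _ = ∏ j : Fin (t + 1), ((univ.filter (fun ω : Ω => ∀ x ∈ P j, F ω x = h x)).card *
                2 ^ k) := by
              rw [Fintype.card_piFinset, prod_mul_distrib, prod_const, card_univ, Fintype.card_fin,
                pow_mul]
          _ = Fintype.card Ω ^ (t + 1) := by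
              rw [prod_congr rfl fun j _ => g2 j, prod_const, card_univ, Fintype.card_fin]
          _ ≤ _ := le_rfl)
    rw [Fintype.card_piFinset_const] at hcount
    calc Ωs.card ^ (t + 1) * 2 ^ (k * (t + 1)) ≤
        (Y.card * (Fintype.card Ω ^ (t + 1) / 2 ^ (k * (t + 1)))) * 2 ^ (k * (t + 1)) :=
          Nat.mul_le_mul_right _ hcount
      _ = Y.card * ((Fintype.card Ω ^ (t + 1) / 2 ^ (k * (t + 1))) * 2 ^ (k * (t + 1))) :=
          mul_assoc _ _ _
      _ ≤ _ := Nat.mul_le_mul_left _ (Nat.div_mul_le_self _ _)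
  -- the largest fibre
  obtain ⟨σ, -, hσ⟩ := exists_max_image (univ : Finset (Fin (t + 2) → V))
    (fun σ => (univ.filter (fun ω => c ω = σ)).card) ⟨c (Classical.arbitrary Ω), mem_univ _⟩
  have hall := TC.card_le_labels (univ : Finset Ω) (univ : Finset (Fin (t + 2) → V)) c
    (fun _ _ => mem_univ _) _ hσ
  rw [card_univ, card_univ, Fintype.card_fun, Fintype.card_fin] at hall
  have hΩ : 0 < Fintype.card Ω ^ (t + 1) := pow_pos Fintype.card_pos _
  refine Nat.le_of_mul_le_mul_left ?_ hΩ
  calc Fintype.card Ω ^ (t + 1) * 2 ^ (k * (t + 1))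
      ≤ (Fintype.card V ^ (t + 2) * (univ.filter (fun ω => c ω = σ)).card) ^ (t + 1) *
        2 ^ (k * (t + 1)) := Nat.mul_le_mul_right _ (Nat.pow_le_pow_left hall _)
    _ = Fintype.card V ^ ((t + 2) * (t + 1)) * ((univ.filter (fun ω => c ω = σ)).card ^ (t + 1) *
        2 ^ (k * (t + 1))) := by
        rw [mul_pow, ← pow_mul]
        ring
    _ ≤ Fintype.card V ^ ((t + 2) * (t + 1)) * (Y.card * Fintype.card Ω ^ (t + 1)) :=
        Nat.mul_le_mul_left _ (hfib σ)
    _ = _ := by ring

end Pool.Agent.Helper41.PM
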