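import Pool.Agent.Helper41.PM.Bound
import Pool.Agent.TH700.PA.Parts

/-!
# Codes of easy functions whose mixtures are hard
-/

set_option autoImplicit false

open Finset

namespace Pool.Agent.Helper41.PM

open Pool.Agent.Helper80K3 Pool.Agent.TH700.PA

/-- The number of extensions of a partial choice. -/
theorem card_extend {Ω : Type} [DecidableEq Ω] (A : Finset Ω) {t M : ℕ} (a : Fin t → Fin M)
    (ha : Function.Injective a) (b : Fin t → Ω) :
    ((Fintype.piFinset fun _ : Fin M => A).filter (fun φ => ∀ j, φ (a j) = b j)).card ≤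
      A.card ^ (M - t) := by
  classical
  have h1 : ((Fintype.piFinset fun _ : Fin M => A).filter (fun φ => ∀ j, φ (a j) = b j)).card ≤
      (Fintype.piFinset fun i : Fin M => if h : ∃ j, a j = i then ({b h.choose} : Finset Ω)
        else A).card := by
    refine card_le_card fun φ hφ => ?_
    rw [mem_filter, Fintype.mem_piFinset] at hφ
    rw [Fintype.mem_piFinset]
    intro i
    split_ifs with h
    · rw [mem_singleton]
      have := hφ.2 h.choose
      rw [h.choose_spec] at this
      exact this
    · exact hφ.1 i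
  refine h1.trans (le_of_eq ?_)
  rw [Fintype.card_piFinset]
  have h2 : ∀ i : Fin M, (if h : ∃ j, a j = i then ({b h.choose} : Finset Ω) else A).card =
      if i ∈ univ.image a then 1 else A.card := by
    intro i
    by_cases h : ∃ j, a j = i
    · rw [dif_pos h, if_pos (by simpa using h), card_singleton]
    · rw [dif_neg h, if_neg (by simpa using h)]
  rw [prod_congr rfl fun i _ => h2 i, prod_ite, prod_const_one, one_mul, prod_const]
  congr 1
  have h3 : univ.filter (fun i : Fin M => i ∉ univ.image a) = (univ.image a)ᶜ := by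
    ext i
    simp
  rw [h3, card_compl, Fintype.card_fin, card_image_of_injective _ ha, card_univ, Fintype.card_fin]

variable {X Ω : Type} [DecidableEq X] [Fintype X] [Fintype Ω] [Nonempty Ω]

/-- The number of tuples with an easy mixture. -/
theorem card_bad {k t : ℕ} (F : Ω → X → Bool) (hU : UnifOff F (univ : Finset Ω) k ∅)
    (Y : Finset (X → Bool)) (p : X → Fin t) (J : Finset (Fin t))
    (hJ : ∀ j ∈ J, k ≤ (univ.filter (fun x => p x = j)).card) [DecidableEq Ω] :
    (univ.filter (fun a : Fin t → Ω => (fun x => F (a (p x)) x) ∈ Y)).card * 2 ^ (k * J.card) ≤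
      Y.card * Fintype.card Ω ^ t := by
  classical
  have hP : ∀ j : Fin t, ∃ P : Finset X, (j ∈ J → P.card = k) ∧ (j ∉ J → P = ∅) ∧
      ∀ x ∈ P, p x = j := by
    intro j
    by_cases h : j ∈ J
    · obtain ⟨P, hP, hPc⟩ := exists_subset_card_eq (hJ j h)
      exact ⟨P, fun _ => hPc, fun h' => absurd h h', fun x hx => (mem_filter.1 (hP hx)).2⟩
    · exact ⟨∅, fun h' => absurd h' h, fun _ => rfl, fun x hx => absurd hx (notMem_empty x)⟩
  choose P hP1 hP2 hP3 using hP
  have hcount := TC.card_le_labels
    (univ.filter (fun a : Fin t → Ω => (fun x => F (a (p x)) x) ∈ Y)) Y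
    (fun a x => F (a (p x)) x) (fun a ha => (mem_filter.1 ha).2)
    (Fintype.card Ω ^ t / 2 ^ (k * J.card)) (by
      intro h _
      rw [Nat.le_div_iff_mul_le (by positivity)]
      have g1 : ((univ.filter (fun a : Fin t → Ω => (fun x => F (a (p x)) x) ∈ Y)).filter
          (fun a => (fun x => F (a (p x)) x) = h)).card ≤
          (Fintype.piFinset (fun j : Fin t =>
            univ.filter (fun ω : Ω => ∀ x ∈ P j, F ω x = h x))).card := by
        refine card_le_card fun a ha => ?_
        rw [mem_filter] at ha
        rw [Fintype.mem_piFinset]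
        intro j
        rw [mem_filter]
        refine ⟨mem_univ _, fun x hx => ?_⟩
        have f2 := congrFun ha.2 x
        simp only [hP3 j x hx] at f2
        exact f2
      have g2 : ∀ j : Fin t, (univ.filter (fun ω : Ω => ∀ x ∈ P j, F ω x = h x)).card *
          (if j ∈ J then 2 ^ k else 1) = Fintype.card Ω := by
        intro j
        by_cases hj : j ∈ J
        · have := hU (P j) h (hP1 j hj).le (disjoint_empty_right _)
          rw [hP1 j hj, card_univ] at this
          rw [if_pos hj]
          convert this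
        · rw [if_neg hj, mul_one, hP2 j hj, ← card_univ]
          congr 1
          ext ω
          simp
      calc _ ≤ (Fintype.piFinset (fun j : Fin t =>
            univ.filter (fun ω : Ω => ∀ x ∈ P j, F ω x = h x))).card * 2 ^ (k * J.card) :=
            Nat.mul_le_mul_right _ g1
        _ = ∏ j : Fin t, ((univ.filter (fun ω : Ω => ∀ x ∈ P j, F ω x = h x)).card *
              (if j ∈ J then 2 ^ k else 1)) := by
            rw [Fintype.card_piFinset, prod_mul_distrib, prod_ite, prod_const_one, mul_one,
              prod_const, pow_mul]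
            congr 3
            ext j
            simp
        _ = Fintype.card Ω ^ t := by
            rw [prod_congr rfl fun j _ => g2 j, prod_const, card_univ, Fintype.card_fin]
        _ ≤ _ := le_rfl)
  calc _ ≤ (Y.card * (Fintype.card Ω ^ t / 2 ^ (k * J.card))) * 2 ^ (k * J.card) :=
        Nat.mul_le_mul_right _ hcount
    _ = Y.card * ((Fintype.card Ω ^ t / 2 ^ (k * J.card)) * 2 ^ (k * J.card)) := mul_assoc _ _ _
    _ ≤ _ := Nat.mul_le_mul_left _ (Nat.div_mul_le_self _ _)

/-- Selection of a code. -/
theorem exists_hard_code {k t M : ℕ} (F : Ω → X → Bool) (hU : UnifOff F (univ : Finset Ω) k ∅)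
    (Y : Finset (X → Bool)) (p : X → Fin t) (J : Finset (Fin t))
    (hJ : ∀ j ∈ J, k ≤ (univ.filter (fun x => p x = j)).card) (A : Finset Ω)
    (hM : M ^ t * (Y.card * Fintype.card Ω ^ t) < A.card ^ t * 2 ^ (k * J.card))
    (hA : A.Nonempty) :
    ∃ φ : Fin M → Ω, (∀ i, φ i ∈ A) ∧ ∀ a : Fin t → Fin M, Function.Injective a →
      (fun x => F (φ (a (p x))) x) ∉ Y := by
  classical
  rcases lt_or_ge M t with hlt | hge
  · obtain ⟨ω, hω⟩ := hA
    refine ⟨fun _ => ω, fun _ => hω, fun a ha => ?_⟩
    have := Fintype.card_le_of_injective a ha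
    rw [Fintype.card_fin, Fintype.card_fin] at this
    omega
  set Bad : Finset (Fin t → Ω) := (Fintype.piFinset fun _ : Fin t => A).filter
    (fun b => (fun x => F (b (p x)) x) ∈ Y) with hBad
  have hBc : Bad.card * 2 ^ (k * J.card) ≤ Y.card * Fintype.card Ω ^ t := by
    refine le_trans (Nat.mul_le_mul_right _ (card_le_card ?_)) (card_bad F hU Y p J hJ)
    intro b hb
    exact mem_filter.2 ⟨mem_univ _, (mem_filter.1 hb).2⟩
  have hBM : M ^ t * Bad.card < A.card ^ t := by
    have h1 : M ^ t * Bad.card * 2 ^ (k * J.card) < A.card ^ t * 2 ^ (k * J.card) := by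
      calc M ^ t * Bad.card * 2 ^ (k * J.card) = M ^ t * (Bad.card * 2 ^ (k * J.card)) := by ring
        _ ≤ M ^ t * (Y.card * Fintype.card Ω ^ t) := Nat.mul_le_mul_left _ hBc
        _ < _ := hM
    exact lt_of_mul_lt_mul_right h1 (Nat.zero_le _)
  by_contra hcon
  push Not at hcon
  -- every choice is bad for some injection
  have hcov : (Fintype.piFinset fun _ : Fin M => A) ⊆
      (univ.filter (fun a : Fin t → Fin M => Function.Injective a)).biUnion (fun a =>
        Bad.biUnion (fun b =>
          (Fintype.piFinset fun _ : Fin M => A).filter (fun φ => ∀ j, φ (a j) = b j))) := by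
    intro φ hφ
    have hφ' := Fintype.mem_piFinset.1 hφ
    obtain ⟨a, ha, hY⟩ := hcon φ hφ'
    rw [mem_biUnion]
    refine ⟨a, mem_filter.2 ⟨mem_univ _, ha⟩, ?_⟩
    rw [mem_biUnion]
    refine ⟨fun j => φ (a j), mem_filter.2 ⟨Fintype.mem_piFinset.2 fun j => hφ' _, hY⟩, ?_⟩
    exact mem_filter.2 ⟨hφ, fun j => rfl⟩
  have h1 := card_le_card hcov
  rw [Fintype.card_piFinset_const] at h1
  have h2 : A.card ^ M ≤ M ^ t * (Bad.card * A.card ^ (M - t)) := by
    refine h1.trans (card_biUnion_le.trans ?_)
    refine (sum_le_card_nsmul _ _ (Bad.card * A.card ^ (M - t)) fun a ha => ?_).trans ?_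
    · refine card_biUnion_le.trans ?_
      refine (sum_le_card_nsmul _ _ (A.card ^ (M - t)) fun b _ => ?_).trans (by rw [smul_eq_mul])
      exact card_extend A a (mem_filter.1 ha).2 b
    · rw [smul_eq_mul]
      refine Nat.mul_le_mul_right _ ?_
      refine (card_filter_le _ _).trans ?_
      rw [card_univ, Fintype.card_fun, Fintype.card_fin, Fintype.card_fin]
  have hA0 : 0 < A.card ^ (M - t) := pow_pos (card_pos.2 hA) _
  have h3 : A.card ^ M = A.card ^ t * A.card ^ (M - t) := by
    rw [← pow_add]
    congr 1
    omega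
  have h4 : M ^ t * Bad.card * A.card ^ (M - t) < A.card ^ t * A.card ^ (M - t) :=
    Nat.mul_lt_mul_of_pos_right hBM hA0
  have h5 : M ^ t * (Bad.card * A.card ^ (M - t)) = M ^ t * Bad.card * A.card ^ (M - t) := by ring
  omega

end Pool.Agent.Helper41.PM
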