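import Pool.Agent.Helper41.PM.Select

/-!
# The number of easy functions accepted by one tree tensor network
-/

set_option autoImplicit false

open Finset

namespace Pool.Agent.Helper41.PM

open Pool.Agent.Helper80K3 Pool.Agent.TH700.PA

variable {X Ω : Type} [DecidableEq X] [Fintype X] [Fintype Ω] [Nonempty Ω]

theorem net_bound {K W : Type} [Field K] [Fintype W] (T : Net K X (Option Bool) W) (a : W → K)
    (h1 : ∀ x, T.reads x ≤ 1) {k q θ e h : ℕ} (F : Ω → X → Bool)
    (hU : UnifOff F (univ : Finset Ω) k ∅) (Y : Finset (X → Bool))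
    (h0 : ∀ g : X → Bool, T.value a (fun x => some (g x)) ≠ 0 → g ∈ Y)
    (A : Finset Ω) (hA : ∀ ω ∈ A, T.value a (fun x => some (F ω x)) ≠ 0)
    (hθ : θ * q = Fintype.card X) (hθ1 : 1 ≤ θ) (hkt : 2 * ((2 * q + 1) * k) ≤ Fintype.card X)
    (hq1 : 1 ≤ q) (hY : Y.card ≤ 2 ^ h) (hh : 8 * h ≤ k * q) (he : 24 * e ≤ k) :
    A.card * 2 ^ e ≤ ((2 * q + 1) * Fintype.card W ^ 3 + 1) * Fintype.card Ω := by
  classical
  rcases A.eq_empty_or_nonempty with rfl | ⟨ω₀, hω₀⟩
  · rw [card_empty, zero_mul]
    exact Nat.zero_le _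
  have hW : Nonempty W := by
    by_contra hW
    rw [not_nonempty_iff] at hW
    exact hA ω₀ hω₀ (by unfold Net.value; simp)
  obtain ⟨T', hr, hev, -⟩ := exists_ext T h1
  have hv : ∀ x, T'.value a x = T.value a x := by
    intro x
    unfold Net.value
    rw [hev]
  have hcut := cutsv_cut T' a fun v => (hr v).le
  have hd : 1 ≤ Fintype.card W := Fintype.card_pos
  obtain ⟨P, hP1, hP2, hP3⟩ := exists_parts (f := fun z => T'.value a z) hd (univ : Finset X) hθ1 T'
    hr (fun A hA => rk_of_cut (hcut A hA)) (t := 2 * q + 1) (by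
      rw [card_univ, ← hθ]
      exact le_of_eq (by ring))
  choose p hp using hP3
  have hpj : ∀ j, univ.filter (fun x => p x = j) = P j := by
    intro j
    ext x
    rw [mem_filter]
    refine ⟨fun h => h.2 ▸ hp x, fun h => ⟨mem_univ _, ?_⟩⟩
    by_contra hne
    exact disjoint_left.1 (hP2 _ _ hne) (hp x) h
  set J : Finset (Fin (2 * q + 1)) :=
    univ.filter (fun j => k ≤ (univ.filter (fun x => p x = j)).card) with hJ
  have hJq : q ≤ 4 * J.card := by
    have hsum : Fintype.card X = ∑ j : Fin (2 * q + 1), (univ.filter (fun x => p x = j)).card := by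
      rw [← card_univ]
      exact card_eq_sum_card_fiberwise fun x _ => mem_univ _
    have hle : ∑ j : Fin (2 * q + 1), (univ.filter (fun x => p x = j)).card ≤
        J.card * (2 * θ) + (2 * q + 1) * k := by
      calc ∑ j : Fin (2 * q + 1), (univ.filter (fun x => p x = j)).card
          ≤ ∑ j : Fin (2 * q + 1), ((if j ∈ J then 2 * θ else 0) + k) := by
            refine sum_le_sum fun j _ => ?_
            by_cases hj : j ∈ J
            · rw [if_pos hj, hpj]
              have := (hP1 j).2.2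
              rw [univ_inter] at this
              omega
            · rw [if_neg hj]
              have : ¬ k ≤ (univ.filter (fun x => p x = j)).card := fun h' =>
                hj (mem_filter.2 ⟨mem_univ _, h'⟩)
              omega
        _ = J.card * (2 * θ) + (2 * q + 1) * k := by
            rw [sum_add_distrib, sum_const, card_univ, Fintype.card_fin, smul_eq_mul,
              sum_ite_mem, univ_inter, sum_const, smul_eq_mul]
    have h3 : θ * q ≤ θ * (4 * J.card) := by
      have e1 : θ * (4 * J.card) = 2 * (J.card * (2 * θ)) := by ring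
      omega
    exact Nat.le_of_mul_le_mul_left h3 hθ1
  by_contra hcon
  rw [not_le] at hcon
  set d : ℕ := Fintype.card W * (Fintype.card W * Fintype.card W) with hd3
  have hdd : Fintype.card W ^ 3 = d := by rw [hd3]; ring
  rw [hdd] at hcon
  set M : ℕ := (2 * q + 1) * d + 1 with hM
  have hexp : e * (2 * q + 1) + h ≤ k * J.card := by
    have e1 : 24 * (e * (2 * q + 1)) ≤ k * (3 * q) := by
      calc 24 * (e * (2 * q + 1)) = 24 * e * (2 * q + 1) := by ring
        _ ≤ k * (3 * q) := Nat.mul_le_mul he (by omega)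
    have e2 : k * q ≤ k * (4 * J.card) := Nat.mul_le_mul_left _ hJq
    have e3 : k * (3 * q) = 3 * (k * q) := by ring
    have e4 : k * (4 * J.card) = 4 * (k * J.card) := by ring
    omega
  have hcond : M ^ (2 * q + 1) * (Y.card * Fintype.card Ω ^ (2 * q + 1)) <
      A.card ^ (2 * q + 1) * 2 ^ (k * J.card) := by
    calc M ^ (2 * q + 1) * (Y.card * Fintype.card Ω ^ (2 * q + 1))
        = (M * Fintype.card Ω) ^ (2 * q + 1) * Y.card := by rw [mul_pow]; ring
      _ ≤ (M * Fintype.card Ω) ^ (2 * q + 1) * 2 ^ h := Nat.mul_le_mul_left _ hY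
      _ < (A.card * 2 ^ e) ^ (2 * q + 1) * 2 ^ h :=
          Nat.mul_lt_mul_of_pos_right (Nat.pow_lt_pow_left hcon (by omega)) (by positivity)
      _ = A.card ^ (2 * q + 1) * 2 ^ (e * (2 * q + 1) + h) := by
          rw [mul_pow, ← pow_mul, pow_add]
          ring
      _ ≤ A.card ^ (2 * q + 1) * 2 ^ (k * J.card) :=
          Nat.mul_le_mul_left _ (Nat.pow_le_pow_right (by norm_num) hexp)
  obtain ⟨φ, hφA, hφ⟩ := exists_hard_code F hU Y p J (fun j hj => (mem_filter.1 hj).2) A hcond
    ⟨ω₀, hω₀⟩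
  have hrep := replacement (f := fun z => T'.value a z) p (fun j => by
    rw [hpj j]
    exact (hP1 j).2.1) (univ : Finset (Fin M)) (fun i x => some (F (φ i) x)) (fun i _ => by
      rw [hv]
      exact hA _ (hφA i)) (by
    intro b _ hinj
    by_contra hne
    rw [hv] at hne
    exact hφ b hinj (h0 _ hne))
  rw [card_univ, Fintype.card_fin] at hrep
  omega

/-- A power of two between `8 h / k` and `16 h / k`. -/
theorem exists_pow {h k : ℕ} (hk : 1 ≤ k) (hkh : k < 8 * h) :
    ∃ b, 8 * h ≤ k * 2 ^ b ∧ k * 2 ^ b < 16 * h := by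
  have hex : ∃ b, 8 * h ≤ k * 2 ^ b := by
    refine ⟨8 * h, ?_⟩
    have := (Nat.lt_two_pow_self (n := 8 * h)).le
    nlinarith
  classical
  refine ⟨Nat.find hex, Nat.find_spec hex, ?_⟩
  have h0 : Nat.find hex ≠ 0 := by
    intro h0
    have := Nat.find_spec hex
    rw [h0] at this
    omega
  obtain ⟨c, hc⟩ := Nat.exists_eq_succ_of_ne_zero h0
  have h1 : ¬ 8 * h ≤ k * 2 ^ c := Nat.find_min hex (by omega)
  rw [hc, Nat.succ_eq_add_one, pow_succ]
  have : k * (2 ^ c * 2) = 2 * (k * 2 ^ c) := by ring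
  omega

end Pool.Agent.Helper41.PM
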