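import Pool.Agent.Helper41.PM.Bound

/-!
# A nondeterministic read-once branching program for Partial MCSP
-/

set_option autoImplicit false

open Finset

namespace Pool.Agent.Helper41.PM

open Pool.Agent.Helper80K3

variable {X : Type} {N : ℕ}

/-- The edges of the program that guesses a function `g` and checks all entries of the table. -/
def guessEdge (G : Finset (X → Bool)) (e : Fin N → X) :
    (Bool ⊕ ({g // g ∈ G} × Fin (N + 1))) → (Bool ⊕ ({g // g ∈ G} × Fin (N + 1))) →
      Option (X × Option Bool) → Prop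
  | .inl false, .inr (_, i), none => i.val = 0
  | .inr (_, i), .inl true, none => i.val = N
  | .inr (g, i), .inr (g', j), some (x, b) => g = g' ∧ ∃ hi : i.val < N, j.val = i.val + 1 ∧
      x = e ⟨i.val, hi⟩ ∧ (b = none ∨ b = some (g.1 x))
  | _, _, _ => False

/-- The program that guesses a function `g` and checks all entries of the table. -/
def guess (G : Finset (X → Bool)) (e : Fin N → X) :
    NBP X (Option Bool) (Bool ⊕ ({g // g ∈ G} × Fin (N + 1))) where
  edge := guessEdge G e
  src := .inl false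
  snk := .inl true

theorem edge_eq (G : Finset (X → Bool)) (e : Fin N → X) : (guess G e).edge = guessEdge G e := rfl

/-- The tests of a walk that starts at position `i` of the branch of `g`. -/
def Good (e : Fin N → X) (g : X → Bool) (i : ℕ) (l : List (X × Option Bool)) : Prop :=
  l.map Prod.fst = ((List.finRange N).drop i).map e ∧ ∀ q ∈ l, q.2 = none ∨ q.2 = some (g q.1)

/-- The tests of a walk to the accepting node. -/
def Inv (G : Finset (X → Bool)) (e : Fin N → X) (l : List (X × Option Bool)) :
    (Bool ⊕ ({g // g ∈ G} × Fin (N + 1))) → Prop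
  | .inl false => ∃ g ∈ G, Good e g 0 l
  | .inl true => l = []
  | .inr (g, i) => Good e g.1 i.val l

theorem inv (G : Finset (X → Bool)) (e : Fin N → X)
    {u v : Bool ⊕ ({g // g ∈ G} × Fin (N + 1))} {l : List (X × Option Bool)}
    (h : Walk (guess G e) u v l) : v = .inl true → Inv G e l u := by
  induction h with
  | nil v =>
    rintro rfl
    rfl
  | @free u v w l he hw ih =>
    intro hv
    have h1 := ih hv
    change guessEdge G e u v none at he
    rcases u with (_ | _) | ⟨g, i⟩ <;> rcases v with (_ | _) | ⟨g', j⟩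
    all_goals first
      | (simp [guessEdge] at he; done)
      | skip
    · have hj : j.val = 0 := he
      refine ⟨g'.1, g'.2, ?_⟩
      have h2 : Good e g'.1 j.val l := h1
      rw [hj] at h2
      exact h2
    · have hi : i.val = N := he
      have h2 : l = [] := h1
      show Good e g.1 i.val l
      rw [h2, hi]
      refine ⟨?_, fun q hq => absurd hq List.not_mem_nil⟩
      rw [List.drop_eq_nil_of_le (by rw [List.length_finRange])]
      rfl
  | @test u v w l q he hw ih =>
    intro hv
    have h1 := ih hv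
    change guessEdge G e u v (some q) at he
    obtain ⟨x, b⟩ := q
    rcases u with (_ | _) | ⟨g, i⟩ <;> rcases v with (_ | _) | ⟨g', j⟩
    all_goals first
      | (simp [guessEdge] at he; done)
      | skip
    obtain ⟨hg, hi, hj, hx, hb⟩ : g = g' ∧ ∃ hi : i.val < N, j.val = i.val + 1 ∧
      x = e ⟨i.val, hi⟩ ∧ (b = none ∨ b = some (g.1 x)) := he
    subst hg
    have h2 : Good e g.1 j.val l := h1
    rw [hj] at h2
    show Good e g.1 i.val ((x, b) :: l)
    refine ⟨?_, fun q hq => ?_⟩
    · have h3 := List.drop_eq_getElem_cons (l := List.finRange N) (i := i.val)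
        (by rw [List.length_finRange]; exact hi)
      rw [List.map_cons, h2.1, h3, List.map_cons, List.getElem_finRange]
      simp only [hx]
      rfl
    · rw [List.mem_cons] at hq
      rcases hq with rfl | hq
      · exact hb
      · exact h2.2 q hq

theorem guess_readOnce (G : Finset (X → Bool)) (e : Fin N → X) (he : Function.Injective e) :
    (guess G e).ReadOnce := by
  intro l hl
  obtain ⟨g, -, h1, -⟩ := inv G e hl rfl
  rw [h1, List.drop_zero]
  exact (List.nodup_finRange N).map he

theorem guess_walk (G : Finset (X → Bool)) (e : Fin N → X) (g : {g // g ∈ G})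
    (T : X → Option Bool) (hT : ∀ x, T x = none ∨ T x = some (g.1 x)) : ∀ m, m ≤ N →
    ∃ (i : Fin (N + 1)) (l : List (X × Option Bool)), i.val = N - m ∧
      Walk (guess G e) (.inr (g, i)) (.inl true) l ∧ ∀ q ∈ l, T q.1 = q.2 := by
  intro m
  induction m with
  | zero =>
    intro _
    refine ⟨⟨N, by omega⟩, [], rfl, ?_, fun q hq => absurd hq List.not_mem_nil⟩
    refine Walk.free (v := .inl true) ?_ (Walk.nil _)
    rw [edge_eq]
    show N = N
    rfl
  | succ m ih =>
    intro hm
    obtain ⟨i, l, hi, hw, hl⟩ := ih (by omega)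
    have hlt : N - (m + 1) < N := by omega
    refine ⟨⟨N - (m + 1), by omega⟩, (e ⟨N - (m + 1), hlt⟩, T (e ⟨N - (m + 1), hlt⟩)) :: l, rfl,
      ?_, fun q hq => ?_⟩
    · refine Walk.test ?_ hw
      rw [edge_eq]
      exact ⟨rfl, hlt, by rw [hi]; show N - m = N - (m + 1) + 1; omega, rfl, hT _⟩
    · rw [List.mem_cons] at hq
      rcases hq with rfl | hq
      · rfl
      · exact hl q hq

theorem guess_accepts (G : Finset (X → Bool)) (e : Fin N → X) (he : Function.Surjective e)
    (T : X → Option Bool) :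
    (guess G e).Accepts T ↔ ∃ g ∈ G, ∀ x b, T x = some b → g x = b := by
  constructor
  · rintro ⟨l, hl, hT⟩
    obtain ⟨g, hg, h1, h2⟩ := inv G e hl rfl
    refine ⟨g, hg, fun x b hxb => ?_⟩
    obtain ⟨i, rfl⟩ := he x
    have h3 : e i ∈ l.map Prod.fst := by
      rw [h1, List.drop_zero]
      exact List.mem_map_of_mem (List.mem_finRange i)
    obtain ⟨q, hq, hqi⟩ := List.mem_map.1 h3
    have h4 := hT q hq
    rw [hqi, hxb] at h4
    rcases h2 q hq with h5 | h5
    · rw [h5] at h4
      exact absurd h4 (by simp)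
    · rw [h5, hqi] at h4
      exact (Option.some.inj h4).symm
  · rintro ⟨g, hg, hT⟩
    obtain ⟨i, l, hi, hw, hl⟩ := guess_walk G e ⟨g, hg⟩ T (fun x => by
      rcases hx : T x with _ | b
      · exact Or.inl rfl
      · exact Or.inr (by show some b = some (g x); rw [hT x b hx])) N le_rfl
    refine ⟨l, Walk.free (v := .inr (⟨g, hg⟩, i)) ?_ hw, hl⟩
    rw [edge_eq]
    show i.val = 0
    omega

/-- The upper bound. -/
theorem nbp_upper {n s : ℕ} (hn : 1 ≤ n) (hs : s + n ≤ 2 ^ n) :
    ∃ (V : Type) (_ : Fintype V) (B : NBP (Fin n → Bool) (Option Bool) V), B.ReadOnce ∧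
      (∀ T, B.Accepts T ↔ ∃ g, HasSize g s ∧ ∀ x b, T x = some b → g x = b) ∧
      Fintype.card V ≤ 2 ^ ((2 * n + 3) * (s + 1) + n + 2) := by
  classical
  set G : Finset ((Fin n → Bool) → Bool) := (easyF n s).filter (fun g => HasSize g s) with hG
  have hX : Fintype.card (Fin n → Bool) = 2 ^ n := by
    rw [Fintype.card_fun, Fintype.card_bool, Fintype.card_fin]
  obtain ⟨e⟩ : Nonempty (Fin (2 ^ n) ≃ (Fin n → Bool)) := ⟨(Fintype.equivFinOfCardEq hX).symm⟩
  refine ⟨_, inferInstance, guess G e, guess_readOnce G e e.injective, fun T => ?_, ?_⟩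
  · rw [guess_accepts G e e.surjective T]
    refine ⟨?_, ?_⟩
    · rintro ⟨g, hg, h⟩
      exact ⟨g, (mem_filter.1 hg).2, h⟩
    · rintro ⟨g, hg, h⟩
      exact ⟨g, mem_filter.2 ⟨mem_easyF hg, hg⟩, h⟩
  · rw [Fintype.card_sum, Fintype.card_prod, Fintype.card_bool, Fintype.card_fin,
      Fintype.card_coe]
    have h1 : G.card ≤ 2 ^ ((2 * n + 3) * (s + 1)) :=
      (card_le_card (filter_subset _ _)).trans (card_easy hn hs)
    have h2 : 1 ≤ 2 ^ ((2 * n + 3) * (s + 1)) := Nat.one_le_two_pow
    have h3 : 1 ≤ 2 ^ n := Nat.one_le_two_pow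
    calc 2 + G.card * (2 ^ n + 1) ≤ 2 * 2 ^ ((2 * n + 3) * (s + 1)) +
          2 ^ ((2 * n + 3) * (s + 1)) * (2 ^ n + 1) := by
          gcongr
          omega
      _ = 2 ^ ((2 * n + 3) * (s + 1)) * (2 ^ n + 3) := by ring
      _ ≤ 2 ^ ((2 * n + 3) * (s + 1)) * (4 * 2 ^ n) := Nat.mul_le_mul_left _ (by omega)
      _ = _ := by
          rw [pow_add, pow_add]
          ring

end Pool.Agent.Helper41.PM
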