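import Pool.Agent.Helper80K3.Easy

/-!
# Nondeterministic read-once branching programs: cutting and mixing walks
-/

set_option autoImplicit false

open Finset

namespace Pool.Agent.Helper41.PM

/-- A nondeterministic branching program with nodes `V`, over the variables `X` with values in `Al`.  An edge is
free (`none`) or is labelled by a test (`some (x, a)`: the variable `x` has the value `a`). -/
structure NBP (X Al V : Type) where
  /-- the labelled edges -/
  edge : V → V → Option (X × Al) → Prop
  /-- the start -/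
  src : V
  /-- the accepting node -/
  snk : V

variable {X Al V : Type}

/-- `Walk B u v l`: there is a walk from `u` to `v` on which the tests `l` are made, in this order. -/
inductive Walk (B : NBP X Al V) : V → V → List (X × Al) → Prop
  | nil (v : V) : Walk B v v []
  | free {u v w : V} {l : List (X × Al)} : B.edge u v none → Walk B v w l → Walk B u w l
  | test {u v w : V} {l : List (X × Al)} {q : X × Al} :
      B.edge u v (some q) → Walk B v w l → Walk B u w (q :: l)

/-- On every walk from the start to the accepting node every variable is tested at most once. -/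
def NBP.ReadOnce (B : NBP X Al V) : Prop :=
  ∀ l, Walk B B.src B.snk l → (l.map Prod.fst).Nodup

/-- There is a walk from the start to the accepting node all tests of which are passed by `T`. -/
def NBP.Accepts (B : NBP X Al V) (T : X → Al) : Prop :=
  ∃ l, Walk B B.src B.snk l ∧ ∀ q ∈ l, T q.1 = q.2

variable {B : NBP X Al V}

theorem Walk.append {u v w : V} {l l' : List (X × Al)} (h : Walk B u v l) (h' : Walk B v w l') :
    Walk B u w (l ++ l') := by
  induction h with
  | nil v => exact h'
  | free he _ ih => exact Walk.free he (ih h')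
  | test he _ ih => exact Walk.test he (ih h')

theorem Walk.split {u w : V} {l : List (X × Al)} (h : Walk B u w l) :
    ∀ l₁ l₂ : List (X × Al), l = l₁ ++ l₂ → ∃ v, Walk B u v l₁ ∧ Walk B v w l₂ := by
  induction h with
  | nil v =>
    intro l₁ l₂ h
    obtain ⟨h1, h2⟩ := List.append_eq_nil_iff.1 h.symm
    rw [h1, h2]
    exact ⟨v, Walk.nil v, Walk.nil v⟩
  | free he _ ih =>
    intro l₁ l₂ h
    obtain ⟨v', h1, h2⟩ := ih l₁ l₂ h
    exact ⟨v', Walk.free he h1, h2⟩
  | @test u v w l q he hw ih =>
    intro l₁ l₂ h
    cases l₁ with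
    | nil =>
      rw [List.nil_append] at h
      rw [← h]
      exact ⟨u, Walk.nil u, Walk.test he hw⟩
    | cons q' l₁ =>
      rw [List.cons_append, List.cons.injEq] at h
      obtain ⟨rfl, h⟩ := h
      obtain ⟨v', h1, h2⟩ := ih l₁ l₂ h
      exact ⟨v', Walk.test he h1, h2⟩

/-- Cutting a long walk. -/
theorem Walk.cut {w : V} (k : ℕ) : ∀ (t : ℕ) {u : V} {l : List (X × Al)}, Walk B u w l →
    (t + 1) * k ≤ l.length → ∃ (τ : ℕ → V) (ls : ℕ → List (X × Al)), τ 0 = u ∧ τ (t + 1) = w ∧
      ∀ j, j < t + 1 → Walk B (τ j) (τ (j + 1)) (ls j) ∧ k ≤ (ls j).length ∧ ∀ q ∈ ls j, q ∈ l := by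
  intro t
  induction t with
  | zero =>
    intro u l h hl
    refine ⟨fun j => if j = 0 then u else w, fun _ => l, rfl, rfl, fun j hj => ?_⟩
    obtain rfl : j = 0 := by omega
    exact ⟨h, by simpa using hl, fun q hq => hq⟩
  | succ t ih =>
    intro u l h hl
    have h0 : k ≤ l.length := le_trans (by nlinarith) hl
    obtain ⟨v, h1, h2⟩ := h.split (l.take k) (l.drop k) (List.take_append_drop k l).symm
    obtain ⟨τ, ls, e1, e2, e3⟩ := ih h2 (by
      rw [List.length_drop]
      have : (t + 1 + 1) * k = (t + 1) * k + k := by ring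
      omega)
    refine ⟨fun j => if j = 0 then u else τ (j - 1), fun j => if j = 0 then l.take k else ls (j - 1),
      rfl, ?_, fun j hj => ?_⟩
    · show τ (t + 1 + 1 - 1) = w
      exact e2
    · rcases Nat.eq_zero_or_pos j with rfl | hj0
      · refine ⟨?_, ?_, ?_⟩
        · show Walk B u (τ 0) (l.take k)
          rw [e1]
          exact h1
        · show k ≤ (l.take k).length
          rw [List.length_take]
          omega
        · intro q hq
          exact List.mem_of_mem_take hq
      · obtain ⟨j, rfl⟩ := Nat.exists_eq_add_of_le' hj0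
        obtain ⟨f1, f2, f3⟩ := e3 j (by omega)
        refine ⟨?_, ?_, ?_⟩
        · show Walk B (τ j) (τ (j + 1)) (ls j)
          exact f1
        · show k ≤ (ls j).length
          exact f2
        · intro q hq
          exact List.mem_of_mem_drop (f3 q hq)

/-- Joining walks. -/
theorem Walk.join {τ : ℕ → V} {ls : ℕ → List (X × Al)} : ∀ (t : ℕ),
    (∀ j, j < t → Walk B (τ j) (τ (j + 1)) (ls j)) →
    Walk B (τ 0) (τ t) ((List.range t).flatMap ls) := by
  intro t
  induction t with
  | zero =>
    intro _
    exact Walk.nil _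
  | succ t ih =>
    intro h
    rw [List.range_succ, List.flatMap_append]
    refine (ih fun j hj => h j (by omega)).append ?_
    simpa using h t (by omega)

/-- The segments of joined walks test different variables. -/
theorem join_disjoint (hB : B.ReadOnce) {τ : ℕ → V} {ls : ℕ → List (X × Al)} {t : ℕ}
    (h0 : τ 0 = B.src) (ht : τ t = B.snk) (h : ∀ j, j < t → Walk B (τ j) (τ (j + 1)) (ls j)) :
    (∀ j, j < t → ((ls j).map Prod.fst).Nodup) ∧ ∀ i j, i < t → j < t → i ≠ j →
      ∀ x, x ∈ (ls i).map Prod.fst → x ∉ (ls j).map Prod.fst := by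
  have h1 := hB _ (by
    have := Walk.join t h
    rwa [h0, ht] at this)
  rw [List.map_flatMap, List.nodup_flatMap] at h1
  refine ⟨fun j hj => h1.1 j (List.mem_range.2 hj), fun i j hi hj hij x hx hx' => ?_⟩
  have hsymm : Std.Symm (Function.onFun List.Disjoint fun a => List.map Prod.fst (ls a)) :=
    ⟨fun a b hab => List.Disjoint.symm hab⟩
  have h2 := List.Pairwise.forall h1.2 (List.mem_range.2 hi) (List.mem_range.2 hj) hij
  exact h2 hx hx'

/-- The variables tested on walks from `u` to `v`. -/
def Vars (B : NBP X Al V) (u v : V) : Set X := {x | ∃ l, Walk B u v l ∧ x ∈ l.map Prod.fst}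

theorem vars_disjoint (hB : B.ReadOnce) {τ : ℕ → V} {ls : ℕ → List (X × Al)} {t : ℕ}
    (h0 : τ 0 = B.src) (ht : τ t = B.snk) (h : ∀ j, j < t → Walk B (τ j) (τ (j + 1)) (ls j))
    {i j : ℕ} (hi : i < t) (hj : j < t) (hij : i ≠ j) {x : X} (hx : x ∈ Vars B (τ i) (τ (i + 1)))
    (hx' : x ∈ Vars B (τ j) (τ (j + 1))) : False := by
  classical
  obtain ⟨l, hl, hxl⟩ := hx
  obtain ⟨l', hl', hxl'⟩ := hx'
  have h1 := (join_disjoint (ls := fun a => if a = i then l else if a = j then l' else ls a) hB h0 ht
    (fun a ha => by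
      by_cases h1 : a = i
      · rw [if_pos h1, h1]
        exact hl
      · rw [if_neg h1]
        by_cases h2 : a = j
        · rw [if_pos h2, h2]
          exact hl'
        · rw [if_neg h2]
          exact h a ha)).2 i j hi hj hij x
  simp only [if_true, if_neg (Ne.symm hij)] at h1
  exact h1 hxl hxl'

/-- The mixture of accepted inputs is accepted. -/
theorem mix_accepts {τ : ℕ → V} {t : ℕ} (h0 : τ 0 = B.src) (ht : τ t = B.snk)
    (ls : ℕ → List (X × Al)) (h : ∀ j, j < t → Walk B (τ j) (τ (j + 1)) (ls j)) (T : X → Al)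
    (hT : ∀ j, j < t → ∀ q ∈ ls j, T q.1 = q.2) : B.Accepts T := by
  refine ⟨(List.range t).flatMap ls, ?_, fun q hq => ?_⟩
  · have := Walk.join t h
    rwa [h0, ht] at this
  · rw [List.mem_flatMap] at hq
    obtain ⟨j, hj, hq⟩ := hq
    exact hT j (List.mem_range.1 hj) q hq

end Pool.Agent.Helper41.PM
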